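import Mathlib
import Pool.Agent.H.MP_190226_lc.C

namespace Pool.Agent.Results.MP_190226_lc.Borel

open MeasureTheory Pool.Agent.H.MP_190226_lc

theorem result (X : Type) [MeasurableSpace X] [StandardBorelSpace X] (μ : Measure X)
    [IsProbabilityMeasure μ] (T₀ : X ≃ᵐ X) (hT : MeasurePreserving T₀ μ μ) :
    @MeasurableSet (FG μ T₀ × FG μ T₀) (borel (FG μ T₀ × FG μ T₀))
      {p | ConjF μ T₀ p.1 p.2} := by
  haveI : BorelSpace (FG μ T₀) := ⟨rfl⟩
  haveI := secondCount (μ := μ) (T₀ := T₀)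
  rw [← BorelSpace.measurable_eq]
  exact borel_conj hT

end Pool.Agent.Results.MP_190226_lc.Borel
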